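import Mathlib
import Pool.Agent.V1113.LDExp

/-!
# The local derivations of a finite-dimensional algebra form a Lie algebra
-/

set_option autoImplicit false
set_option linter.all false

namespace Pool.Agent.Results.MP_066924_al.LocDerIsLie

open NormedSpace Pool.Agent.V1113.LD

/-- `D` is a derivation of the algebra `A` with product `μ`. -/
def IsDerivation {𝕜 A : Type*} [Field 𝕜] [AddCommGroup A] [Module 𝕜 A] (μ : A →ₗ[𝕜] A →ₗ[𝕜] A)
    (D : A →ₗ[𝕜] A) : Prop := ∀ x y, D (μ x y) = μ (D x) y + μ x (D y)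

/-- `T` is a local derivation of the algebra `A` with product `μ`: it is linear and at each point `x`
it agrees with a derivation, which may depend on `x`. -/
def IsLocalDerivation {𝕜 A : Type*} [Field 𝕜] [AddCommGroup A] [Module 𝕜 A]
    (μ : A →ₗ[𝕜] A →ₗ[𝕜] A) (T : A →ₗ[𝕜] A) : Prop := ∀ x, ∃ D, IsDerivation μ D ∧ T x = D x

section Normed

variable {𝕜 V : Type*} [RCLike 𝕜] [NormedAddCommGroup V] [NormedSpace 𝕜 V]
  [FiniteDimensional 𝕜 V] (μ : V →ₗ[𝕜] V →ₗ[𝕜] V)

/-- The space of the values at `x` of the derivations. -/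
def valueSpace {A : Type*} [AddCommGroup A] [Module 𝕜 A] (μ : A →ₗ[𝕜] A →ₗ[𝕜] A) (x : A) :
    Submodule 𝕜 A where
  carrier := {v | ∃ D, IsDerivation μ D ∧ v = D x}
  zero_mem' := ⟨0, fun _ _ => by simp, rfl⟩
  add_mem' := by
    rintro _ _ ⟨D, hD, rfl⟩ ⟨E, hE, rfl⟩
    refine ⟨D + E, fun a b => ?_, rfl⟩
    simp only [LinearMap.add_apply, hD a b, hE a b, map_add]
    abel
  smul_mem' := by
    rintro c _ ⟨D, hD, rfl⟩
    refine ⟨c • D, fun a b => ?_, rfl⟩
    simp only [LinearMap.smul_apply, hD a b, map_smul, smul_add]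

theorem lie_derivation {A : Type*} [AddCommGroup A] [Module 𝕜 A] {μ : A →ₗ[𝕜] A →ₗ[𝕜] A}
    {D E : A →ₗ[𝕜] A} (hD : IsDerivation μ D) (hE : IsDerivation μ E) :
    IsDerivation μ (D * E - E * D) := by
  intro a b
  have hD' : ∀ x y, D (μ x y) = μ (D x) y + μ x (D y) := hD
  have hE' : ∀ x y, E (μ x y) = μ (E x) y + μ x (E y) := hE
  simp only [LinearMap.sub_apply, Module.End.mul_apply, map_add, hD', hE', map_sub]
  abel

variable {μ}

/-- The bracket of a local derivation and a derivation is a local derivation. -/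
theorem bracket_derivation {S E : V →ₗ[𝕜] V} (hS : IsLocalDerivation μ S) (hE : IsDerivation μ E)
    (x : V) : S (E x) - E (S x) ∈ valueSpace μ x := by
  let μc : V →L[𝕜] V →L[𝕜] V := LinearMap.toContinuousLinearMap
    ((LinearMap.toContinuousLinearMap : (V →ₗ[𝕜] V) ≃ₗ[𝕜] (V →L[𝕜] V)).toLinearMap.comp μ)
  have hμ : ∀ a b, μc a b = μ a b := fun a b => rfl
  let Ec : V →L[𝕜] V := LinearMap.toContinuousLinearMap E
  let Sc : V →L[𝕜] V := LinearMap.toContinuousLinearMap S
  have hEc : ∀ a b, Ec (μc a b) = μc (Ec a) b + μc a (Ec b) := fun a b => hE a b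
  have haut := fun t => exp_aut (𝕜 := 𝕜) μc hEc t
  -- conjugation of derivations
  have hconj : ∀ (t : 𝕜) (D : V →ₗ[𝕜] V), IsDerivation μ D →
      exp (t • (-Ec)) (D (exp (t • Ec) x)) ∈ valueSpace μ x := by
    intro t D hD
    have hinv : ∀ v, exp (t • (-Ec)) (exp (t • Ec) v) = v := fun v =>
      congrArg (fun f : V →L[𝕜] V => f v) (exp_neg_mul_exp Ec t)
    have hEn : ∀ a b, (-Ec) (μc a b) = μc ((-Ec) a) b + μc a ((-Ec) b) := by
      intro a b
      simp only [ContinuousLinearMap.neg_apply, hEc, map_neg, neg_add]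
    have haut' := exp_aut (𝕜 := 𝕜) μc hEn t
    refine ⟨(exp (t • (-Ec)) : V →L[𝕜] V).toLinearMap * D * (exp (t • Ec) : V →L[𝕜] V).toLinearMap,
      fun a b => ?_, rfl⟩
    simp only [Module.End.mul_apply, ContinuousLinearMap.coe_coe]
    rw [← hμ a b, haut, hμ, hD, map_add, ← hμ, ← hμ, haut', haut', hinv, hinv]
    rfl
  have hg : HasDerivAt (fun t : 𝕜 => exp (t • (-Ec)) (Sc (exp (t • Ec) x)))
      (exp ((0 : 𝕜) • (-Ec)) (Sc (Ec (exp ((0 : 𝕜) • Ec) x)) - Ec (Sc (exp ((0 : 𝕜) • Ec) x)))) 0 :=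
    hasDerivAt_exp_neg_apply Ec
      (Sc.hasFDerivAt.comp_hasDerivAt (0 : 𝕜) (hasDerivAt_exp_apply Ec x (0 : 𝕜)))
  have h1 := deriv_mem (W := valueSpace μ x) hg (fun t => by
    obtain ⟨D, hD, hDx⟩ := hS (exp (t • Ec) x)
    have : Sc (exp (t • Ec) x) = D (exp (t • Ec) x) := hDx
    rw [this]
    exact hconj t D hD)
  have h0 : (exp (0 : V →L[𝕜] V) : V →L[𝕜] V) = 1 := by
    letI : NormedAlgebra ℚ (V →L[𝕜] V) := NormedAlgebra.restrictScalars ℚ 𝕜 _
    exact NormedSpace.exp_zero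
  simp only [zero_smul, h0, ContinuousLinearMap.one_apply] at h1
  exact h1

theorem closed_normed {S T : V →ₗ[𝕜] V} (hS : IsLocalDerivation μ S) (hT : IsLocalDerivation μ T) :
    IsLocalDerivation μ (S * T - T * S) := by
  intro x
  obtain ⟨D, hD, hTx⟩ := hT x
  obtain ⟨E, hE, hSx⟩ := hS x
  have h1 := bracket_derivation hS hD x
  have h2 := bracket_derivation hT hE x
  have h3 : (D * E - E * D) x ∈ valueSpace μ x := ⟨_, lie_derivation hD hE, rfl⟩
  have h4 := (valueSpace μ x).add_mem ((valueSpace μ x).sub_mem h1 h2) h3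
  have e : S (D x) - D (S x) - (T (E x) - E (T x)) + (D * E - E * D) x = (S * T - T * S) x := by
    simp only [LinearMap.sub_apply, Module.End.mul_apply, hSx, hTx]
    abel
  rw [e] at h4
  exact h4

end Normed

/-- For every finite-dimensional algebra over the real or complex numbers the commutator of two local
derivations is a local derivation. -/
theorem result {𝕜 A : Type*} [RCLike 𝕜] [AddCommGroup A] [Module 𝕜 A] [FiniteDimensional 𝕜 A]
    (μ : A →ₗ[𝕜] A →ₗ[𝕜] A) (S T : A →ₗ[𝕜] A) (hS : IsLocalDerivation μ S)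
    (hT : IsLocalDerivation μ T) : IsLocalDerivation μ (S * T - T * S) := by
  let e := (Module.finBasis 𝕜 A).equivFun
  letI : NormedAddCommGroup A := NormedAddCommGroup.induced A (Fin _ → 𝕜) e e.injective
  letI : NormedSpace 𝕜 A := NormedSpace.induced 𝕜 A (Fin _ → 𝕜) e
  exact closed_normed hS hT

end Pool.Agent.Results.MP_066924_al.LocDerIsLie
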